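import Pool.Graph.R_seed8.W889.SD.Sub

set_option autoImplicit false

/-! Semilattices coding the subdivided graphs: the combinatorial part. -/

namespace Pool.Agent.H154.FVS

open Pool.Agent.W889.SD (Big Pth Subd)

/-- zero elements -/
def zr (μ : ℕ → ℕ → ℕ) (x : ℕ) : Prop := ∀ u, μ x u = x

/-- the elements which are not zero -/
def dm (μ : ℕ → ℕ → ℕ) (x : ℕ) : Prop := ¬ zr μ x

/-- comparability of two different elements which are not zero -/
def rl (μ : ℕ → ℕ → ℕ) (x y : ℕ) : Prop := x ≠ y ∧ dm μ x ∧ dm μ y ∧ (μ x y = x ∨ μ x y = y)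

/-- the coded semilattices -/
structure FAS (μ : ℕ → ℕ → ℕ) : Prop where
  assoc : ∀ x y z, μ (μ x y) z = μ x (μ y z)
  idem : ∀ x, μ x x = x
  comm : ∀ x y, μ x y = μ y x
  zero : ∃ z, zr μ z
  lt : ∀ x y, dm μ x → dm μ y → x ≠ y → μ x y = x → ¬ Big (rl μ) x ∧ Big (rl μ) y

variable {μ μ' : ℕ → ℕ → ℕ}

theorem zr_uniq (h : FAS μ) {x y : ℕ} (hx : zr μ x) (hy : zr μ y) : x = y :=
  (hx y).symm.trans ((h.comm x y).trans (hy x))

theorem inf (h : FAS μ) (N : ℕ) : ∃ u, N ≤ u ∧ dm μ u := by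
  by_cases h1 : dm μ N
  · exact ⟨N, le_rfl, h1⟩
  · refine ⟨N + 1, Nat.le_succ N, fun h2 => ?_⟩
    have h3 := zr_uniq h (not_not.1 h1) h2
    omega

theorem rl_symm (h : FAS μ) {x y : ℕ} (hr : rl μ x y) : rl μ y x := by
  obtain ⟨h1, h2, h3, h4⟩ := hr
  refine ⟨h1.symm, h3, h2, ?_⟩
  rw [h.comm y x]
  exact h4.symm

/-- the product in terms of the graph -/
def Rz (μ : ℕ → ℕ → ℕ) (x y z : ℕ) : Prop :=
  (x = y ∧ y = z) ∨ (rl μ x y ∧ ((z = x ∧ ¬ Big (rl μ) x) ∨ (z = y ∧ ¬ Big (rl μ) y))) ∨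
    (x ≠ y ∧ ¬ rl μ x y ∧ rl μ z x ∧ rl μ z y ∧ ¬ Big (rl μ) z)

/-- below -/
theorem below (h : FAS μ) {z x : ℕ} (hr : rl μ z x) (hb : ¬ Big (rl μ) z) : μ z x = z := by
  obtain ⟨h1, h2, h3, h4⟩ := hr
  rcases h4 with h4 | h4
  · exact h4
  · have h5 : μ x z = x := by rw [h.comm]; exact h4
    exact absurd (h.lt x z h3 h2 h1.symm h5).2 hb

theorem key (h : FAS μ) {x y z : ℕ} (hx : dm μ x) (hy : dm μ y) (hz : dm μ z) :
    μ x y = z ↔ Rz μ x y z := by
  have hxm : μ (μ x y) x = μ x y := by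
    rw [h.comm (μ x y) x, ← h.assoc, h.idem]
  have hym : μ (μ x y) y = μ x y := by
    rw [h.assoc, h.idem]
  constructor
  · intro he
    by_cases hxy : x = y
    · subst hxy
      rw [h.idem] at he
      exact Or.inl ⟨rfl, he⟩
    by_cases hr : rl μ x y
    · refine Or.inr (Or.inl ⟨hr, ?_⟩)
      rcases hr.2.2.2 with h4 | h4
      · exact Or.inl ⟨he.symm.trans h4, (h.lt x y hx hy hxy h4).1⟩
      · have h5 : μ y x = y := by rw [h.comm]; exact h4
        exact Or.inr ⟨he.symm.trans h4, (h.lt y x hy hx (Ne.symm hxy) h5).1⟩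
    · have hzx : z ≠ x := by
        intro hc
        exact hr ⟨hxy, hx, hy, Or.inl (he.trans hc)⟩
      have hzy : z ≠ y := by
        intro hc
        exact hr ⟨hxy, hx, hy, Or.inr (he.trans hc)⟩
      rw [he] at hxm hym
      exact Or.inr (Or.inr ⟨hxy, hr, ⟨hzx, hz, hx, Or.inl hxm⟩, ⟨hzy, hz, hy, Or.inl hym⟩,
        (h.lt z x hz hx hzx hxm).1⟩)
  · rintro (⟨h1, h2⟩ | ⟨hr, ⟨h1, h2⟩ | ⟨h1, h2⟩⟩ | ⟨hxy, hr, h1, h2, h3⟩)
    · rw [← h2, ← h1]
      exact h.idem x
    · rw [h1]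
      exact below h hr h2
    · rw [h1, h.comm]
      exact below h (rl_symm h hr) h2
    · have b1 := below h h1 h3
      have b2 := below h h2 h3
      have b3 : μ z (μ x y) = z := by rw [← h.assoc, b1, b2]
      by_contra hne
      have hw : dm μ (μ x y) := by
        intro hw
        have h4 := hw z
        rw [h.comm, b3] at h4
        exact hne h4.symm
      have h5 := (h.lt z (μ x y) hz hw (fun hc => hne hc.symm) b3).2
      have hwx : μ x y ≠ x := fun hc => hr ⟨hxy, hx, hy, Or.inl hc⟩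
      exact (h.lt (μ x y) x hw hx hwx hxm).1 h5

theorem big_of (τ : {x // dm μ x} → {x // dm μ' x}) (hi : Function.Injective τ)
    (hτ : ∀ x y : {x // dm μ x}, rl μ x y → rl μ' (τ x) (τ y)) (x : {x // dm μ x})
    (hb : Big (rl μ) x) : Big (rl μ') (τ x) := by
  obtain ⟨a, b, c, h1, h2, h3, h4, h5, h6⟩ := hb
  have ha : dm μ a := h4.2.2.1
  have hb : dm μ b := h5.2.2.1
  have hc : dm μ c := h6.2.2.1
  refine ⟨τ ⟨a, ha⟩, τ ⟨b, hb⟩, τ ⟨c, hc⟩, fun h => h1 ?_, fun h => h2 ?_, fun h => h3 ?_,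
    hτ x ⟨a, ha⟩ h4, hτ x ⟨b, hb⟩ h5, hτ x ⟨c, hc⟩ h6⟩
  · exact congrArg Subtype.val (hi (Subtype.ext h))
  · exact congrArg Subtype.val (hi (Subtype.ext h))
  · exact congrArg Subtype.val (hi (Subtype.ext h))

theorem Rz_of (τ : {x // dm μ x} ≃ {x // dm μ' x})
    (hτ : ∀ x y : {x // dm μ x}, rl μ' (τ x) (τ y) ↔ rl μ x y) (x y z : {x // dm μ x}) :
    Rz μ' (τ x) (τ y) (τ z) ↔ Rz μ x y z := by
  have hB : ∀ x : {x // dm μ x}, Big (rl μ') (τ x) ↔ Big (rl μ) x := by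
    intro x
    constructor
    · intro hb
      have h1 := big_of (μ := μ') (μ' := μ) τ.symm τ.symm.injective (fun x y hr => by
        rw [← hτ, Equiv.apply_symm_apply, Equiv.apply_symm_apply]
        exact hr) (τ x) hb
      rw [Equiv.symm_apply_apply] at h1
      exact h1
    · exact big_of τ τ.injective (fun x y hr => (hτ x y).2 hr) x
  have hE : ∀ x y : {x // dm μ x}, ((τ x : ℕ) = τ y) ↔ ((x : ℕ) = y) := by
    intro x y
    constructor
    · intro h
      exact congrArg Subtype.val (τ.injective (Subtype.ext h))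
    · intro h
      rw [Subtype.ext h]
  unfold Rz
  rw [hτ, hτ, hτ, hB, hB, hB, hE, hE, hE, hE, Ne, hE]

theorem up (h : FAS μ) (h' : FAS μ') (τ : {x // dm μ x} ≃ {x // dm μ' x})
    (hτ : ∀ x y : {x // dm μ x}, rl μ' (τ x) (τ y) ↔ rl μ x y) :
    ∃ σ : Equiv.Perm ℕ, ∀ a b, σ (μ a b) = μ' (σ a) (σ b) := by
  classical
  obtain ⟨z, hz⟩ := h.zero
  obtain ⟨z', hz'⟩ := h'.zero
  have hn : ∀ x, ¬ dm μ x → x = z := fun x hx => zr_uniq h (not_not.1 hx) hz
  have hn' : ∀ x, ¬ dm μ' x → x = z' := fun x hx => zr_uniq h' (not_not.1 hx) hz'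
  have hzz : ¬ dm μ z := fun hc => hc hz
  have hzz' : ¬ dm μ' z' := fun hc => hc hz'
  let σ : Equiv.Perm ℕ :=
    { toFun := fun x => if hx : dm μ x then (τ ⟨x, hx⟩ : ℕ) else z'
      invFun := fun y => if hy : dm μ' y then (τ.symm ⟨y, hy⟩ : ℕ) else z
      left_inv := fun x => by
        by_cases hx : dm μ x
        · simp only [dif_pos hx, dif_pos (τ ⟨x, hx⟩).2, Subtype.coe_eta, Equiv.symm_apply_apply]
        · simp only [dif_neg hx, dif_neg hzz']
          exact (hn x hx).symm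
      right_inv := fun y => by
        by_cases hy : dm μ' y
        · simp only [dif_pos hy, dif_pos (τ.symm ⟨y, hy⟩).2, Subtype.coe_eta,
            Equiv.apply_symm_apply]
        · simp only [dif_neg hy, dif_neg hzz]
          exact (hn' y hy).symm }
  have s1 : ∀ x (hx : dm μ x), σ x = τ ⟨x, hx⟩ := fun x hx => dif_pos hx
  have s2 : ∀ x, ¬ dm μ x → σ x = z' := fun x hx => dif_neg hx
  refine ⟨σ, fun a b => ?_⟩
  by_cases ha : dm μ a
  · by_cases hb : dm μ b
    · rw [s1 a ha, s1 b hb]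
      by_cases hc : dm μ (μ a b)
      · rw [s1 _ hc]
        have h1 := (key h ha hb hc).1 rfl
        have h2 := (Rz_of τ hτ ⟨a, ha⟩ ⟨b, hb⟩ ⟨μ a b, hc⟩).2 h1
        exact ((key h' (τ ⟨a, ha⟩).2 (τ ⟨b, hb⟩).2 (τ ⟨μ a b, hc⟩).2).2 h2).symm
      · rw [s2 _ hc]
        by_contra hne
        have hw : dm μ' (μ' (τ ⟨a, ha⟩) (τ ⟨b, hb⟩)) := by
          by_contra hw
          exact hne (hn' _ hw).symm
        have h1 := (key h' (τ ⟨a, ha⟩).2 (τ ⟨b, hb⟩).2 hw).1 rfl
        have e : (τ (τ.symm ⟨μ' (τ ⟨a, ha⟩) (τ ⟨b, hb⟩), hw⟩) : ℕ) =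
            μ' (τ ⟨a, ha⟩) (τ ⟨b, hb⟩) := by rw [Equiv.apply_symm_apply]
        rw [← e] at h1
        have h2 := (Rz_of τ hτ ⟨a, ha⟩ ⟨b, hb⟩ _).1 h1
        have h3 := (key h ha hb (τ.symm ⟨μ' (τ ⟨a, ha⟩) (τ ⟨b, hb⟩), hw⟩).2).2 h2
        rw [h3] at hc
        exact hc (τ.symm ⟨μ' (τ ⟨a, ha⟩) (τ ⟨b, hb⟩), hw⟩).2
    · have e1 : μ a b = z := by rw [hn b hb, h.comm]; exact hz a
      rw [e1, s2 z hzz, s2 b hb, h'.comm]
      exact (hz' _).symm
  · have e1 : μ a b = z := by rw [hn a ha]; exact hz b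
    rw [e1, s2 z hzz, s2 a ha]
    exact (hz' _).symm

section ex

variable {y : ℕ → ℕ → Prop}

theorem c2 (hs : Subd 0 y) {u v : ℕ} (hu : ¬ Big y u) (huv : y u v) : Big y v := by
  rcases hs.cov u hu with h | ⟨w, p, w', i, hp, rfl⟩
  · exact absurd huv (h v)
  · rcases hs.cl w p w' i v hp huv with ⟨rfl, -⟩ | ⟨rfl, -⟩ | ⟨j, -, h⟩
    · exact hp.bw
    · exact hp.bw'
    · have := i.2
      have := j.2
      omega

theorem c3 (hs : Subd 0 y) {u v a b : ℕ} (hu : Big y u) (hv : Big y v) (hne : u ≠ v)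
    (h1 : y u a) (h2 : y v a) (h3 : y u b) (h4 : y v b) : a = b := by
  have mk : ∀ a, y u a → y v a → Pth 0 y u (fun _ => a) v := by
    intro a h1 h2
    exact ⟨hu, hv, hne, fun i j _ => Fin.ext (by
        have := i.2
        have := j.2
        omega), fun _ hb => hs.indep u a hu hb h1,
      fun _ _ => h1, fun i j hij => by
        have := i.2
        have := j.2
        omega, fun _ _ => hs.symm _ _ h2⟩
  exact congrFun (hs.uq u _ v _ (mk a h1 h2) (mk b h3 h4)) 0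

/-- the coding sets -/
def F (y : ℕ → ℕ → Prop) : ℕ → Set ℕ
  | 0 => ∅
  | v + 1 => {u | (Big y v ∧ y v u) ∨ (¬ Big y v ∧ u = v)}

theorem mem_F_big {v u : ℕ} (hv : Big y v) : u ∈ F y (v + 1) ↔ y v u := by
  constructor
  · rintro (⟨-, h⟩ | ⟨h, -⟩)
    · exact h
    · exact absurd hv h
  · intro h
    exact Or.inl ⟨hv, h⟩

theorem mem_F_small {v u : ℕ} (hv : ¬ Big y v) : u ∈ F y (v + 1) ↔ u = v := by
  constructor
  · rintro (⟨h, -⟩ | ⟨-, h⟩)
    · exact absurd h hv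
    · exact h
  · intro h
    exact Or.inr ⟨hv, h⟩

theorem F_ne (v : ℕ) : (F y (v + 1)).Nonempty := by
  by_cases hv : Big y v
  · obtain ⟨a, b, c, -, -, -, h, -, -⟩ := id hv
    exact ⟨a, (mem_F_big hv).2 h⟩
  · exact ⟨v, (mem_F_small hv).2 rfl⟩

theorem F_sub (hs : Subd 0 y) {u v : ℕ} (hne : u ≠ v) (h : F y (u + 1) ⊆ F y (v + 1)) :
    ¬ Big y u ∧ Big y v ∧ y v u := by
  by_cases hu : Big y u
  · obtain ⟨a, b, c, hab, hac, hbc, ha, hb, hc⟩ := id hu
    have h1 := h ((mem_F_big hu).2 ha)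
    have h2 := h ((mem_F_big hu).2 hb)
    by_cases hv : Big y v
    · rw [mem_F_big hv] at h1 h2
      exact absurd (c3 hs hu hv hne ha h1 hb h2) hab
    · rw [mem_F_small hv] at h1 h2
      exact absurd (h1.trans h2.symm) hab
  · have h1 := h ((mem_F_small hu).2 rfl)
    by_cases hv : Big y v
    · rw [mem_F_big hv] at h1
      exact ⟨hu, hv, h1⟩
    · rw [mem_F_small hv] at h1
      exact absurd h1 hne

theorem F_inj (hs : Subd 0 y) {m n : ℕ} (h : F y m = F y n) : m = n := by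
  rcases m with - | m <;> rcases n with - | n
  · rfl
  · have := F_ne (y := y) n
    rw [← h] at this
    exact absurd this Set.not_nonempty_empty
  · have := F_ne (y := y) m
    rw [h] at this
    exact absurd this Set.not_nonempty_empty
  · by_contra hne
    have hne' : m ≠ n := fun hc => hne (by rw [hc])
    have h1 := F_sub hs hne' h.subset
    have h2 := F_sub hs hne'.symm h.symm.subset
    exact h1.1 h2.2.1

theorem F_inter (hs : Subd 0 y) (m n : ℕ) : ∃ k, F y k = F y m ∩ F y n := by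
  rcases m with - | m
  · exact ⟨0, (Set.empty_inter _).symm⟩
  rcases n with - | n
  · exact ⟨0, (Set.inter_empty _).symm⟩
  by_cases hmn : m = n
  · exact ⟨m + 1, by rw [hmn, Set.inter_self]⟩
  by_cases hex : ∃ a, a ∈ F y (m + 1) ∩ F y (n + 1)
  · obtain ⟨a, ha, ha'⟩ := hex
    have hab : ¬ Big y a := by
      intro hb
      by_cases hm : Big y m
      · rw [mem_F_big hm] at ha
        exact hs.indep _ _ hm hb ha
      · rw [mem_F_small hm] at ha
        exact hm (ha ▸ hb)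
    refine ⟨a + 1, ?_⟩
    ext b
    rw [mem_F_small hab, Set.mem_inter_iff]
    constructor
    · rintro rfl
      exact ⟨ha, ha'⟩
    · rintro ⟨hb, hb'⟩
      by_cases hm : Big y m
      · by_cases hn : Big y n
        · rw [mem_F_big hm] at ha hb
          rw [mem_F_big hn] at ha' hb'
          exact c3 hs hm hn hmn hb hb' ha ha'
        · rw [mem_F_small hn] at ha' hb'
          exact hb'.trans ha'.symm
      · rw [mem_F_small hm] at ha hb
        exact hb.trans ha.symm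
  · refine ⟨0, ?_⟩
    have : F y (m + 1) ∩ F y (n + 1) = ∅ := by
      rw [Set.eq_empty_iff_forall_notMem]
      intro a ha
      exact hex ⟨a, ha⟩
    rw [this]
    rfl

theorem ex (hs : Subd 0 y) : ∃ μ : ℕ → ℕ → ℕ, FAS μ ∧ ∃ π : ℕ ≃ {x // dm μ x},
    ∀ u v, rl μ (π u) (π v) ↔ y u v := by
  choose μ hμ using F_inter hs
  have assoc : ∀ x y z, μ (μ x y) z = μ x (μ y z) := by
    intro a b c
    apply F_inj hs
    rw [hμ, hμ, hμ, hμ, Set.inter_assoc]
  have idem : ∀ x, μ x x = x := by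
    intro a
    apply F_inj hs
    rw [hμ, Set.inter_self]
  have comm : ∀ x y, μ x y = μ y x := by
    intro a b
    apply F_inj hs
    rw [hμ, hμ, Set.inter_comm]
  have z0 : zr μ 0 := by
    intro u
    apply F_inj hs
    rw [hμ]
    exact Set.empty_inter _
  have d1 : ∀ v, dm μ (v + 1) := by
    intro v hz
    have h1 := hz 0
    have h2 := hμ (v + 1) 0
    rw [h1] at h2
    have h3 := F_ne (y := y) v
    rw [h2] at h3
    have h4 : F y (v + 1) ∩ F y 0 = ∅ := Set.inter_empty _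
    rw [h4] at h3
    exact Set.not_nonempty_empty h3
  have d2 : ∀ x, dm μ x → ∃ v, x = v + 1 := by
    intro x hx
    rcases x with - | v
    · exact absurd z0 hx
    · exact ⟨v, rfl⟩
  have le : ∀ u v, u ≠ v → μ (u + 1) (v + 1) = u + 1 → ¬ Big y u ∧ Big y v ∧ y v u := by
    intro u v hne he
    apply F_sub hs hne
    have h1 := hμ (u + 1) (v + 1)
    rw [he] at h1
    rw [h1]
    exact Set.inter_subset_right
  have hr : ∀ u v, rl μ (u + 1) (v + 1) ↔ y u v := by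
    intro u v
    constructor
    · rintro ⟨h1, -, -, h2 | h2⟩
      · exact hs.symm _ _ (le u v (fun hc => h1 (by rw [hc])) h2).2.2
      · rw [comm] at h2
        exact (le v u (fun hc => h1 (by rw [hc])) h2).2.2
    · intro h
      have hne : u ≠ v := by
        rintro rfl
        exact hs.irrefl _ h
      have hs' : ∀ u v, ¬ Big y u → y u v → μ (u + 1) (v + 1) = u + 1 := by
        intro u v hu huv
        have hv := c2 hs hu huv
        apply F_inj hs
        rw [hμ]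
        ext a
        rw [Set.mem_inter_iff, mem_F_small hu, mem_F_big hv]
        constructor
        · exact fun h => h.1
        · rintro rfl
          exact ⟨rfl, hs.symm _ _ huv⟩
      refine ⟨fun hc => hne (by omega), d1 u, d1 v, ?_⟩
      by_cases hu : Big y u
      · right
        rw [comm]
        exact hs' v u (fun hv => hs.indep _ _ hu hv h) (hs.symm _ _ h)
      · left
        exact hs' u v hu h
  have hb : ∀ v, Big (rl μ) (v + 1) ↔ Big y v := by
    intro v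
    constructor
    · rintro ⟨a, b, c, h1, h2, h3, h4, h5, h6⟩
      obtain ⟨a, rfl⟩ := d2 a h4.2.2.1
      obtain ⟨b, rfl⟩ := d2 b h5.2.2.1
      obtain ⟨c, rfl⟩ := d2 c h6.2.2.1
      exact ⟨a, b, c, fun h => h1 (by rw [h]), fun h => h2 (by rw [h]), fun h => h3 (by rw [h]),
        (hr _ _).1 h4, (hr _ _).1 h5, (hr _ _).1 h6⟩
    · rintro ⟨a, b, c, h1, h2, h3, h4, h5, h6⟩
      exact ⟨a + 1, b + 1, c + 1, fun h => h1 (by omega), fun h => h2 (by omega),
        fun h => h3 (by omega), (hr _ _).2 h4, (hr _ _).2 h5, (hr _ _).2 h6⟩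
  refine ⟨μ, ⟨assoc, idem, comm, ⟨0, z0⟩, ?_⟩, ?_⟩
  · intro x x' hx hx' hne he
    obtain ⟨u, rfl⟩ := d2 x hx
    obtain ⟨v, rfl⟩ := d2 x' hx'
    rw [hb, hb]
    have := le u v (fun hc => hne (by rw [hc])) he
    exact ⟨this.1, this.2.1⟩
  · refine ⟨⟨fun v => ⟨v + 1, d1 v⟩, fun x => x.1 - 1, fun v => rfl, fun x => ?_⟩, fun u v => hr u v⟩
    obtain ⟨v, hv⟩ := d2 x.1 x.2
    apply Subtype.ext
    show x.1 - 1 + 1 = x.1
    omega

end ex

end Pool.Agent.H154.FVS
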