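import Pool.Agent.H4.FV.Stm
import Pool.Agent.H154.FV.SA

set_option autoImplicit false
set_option linter.unusedSectionVars false

/-! Vaught's conjecture reduces to semilattices (subtask FV-S of helper4). -/

namespace Pool.Agent.H154.FVS

open FirstOrder FirstOrder.Language
open Pool.Agent.W889.FO
open Pool.Agent.TH686.FO
open Pool.Agent.W889.FO.StA (FD.all1 FD.ex1)
open Pool.Agent.W889.FO.StE (LG gd)
open Pool.Agent.W889.SD (Big)
open Pool.Agent.H4.VG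
open Pool.Agent.H4.FV

section

variable {α : Type} {p q : LR.Structure ℕ → (α → ℕ) → ℕ}

theorem fd_zr (hp : FT p) : FD St0.W (fun S v => zr (ml S) (p S v)) :=
  FD.all1 (P := fun S v u => ml S (p S v) u = p S v)
    (eqT ((hp.sub Sum.inl).mul (FT.var (Sum.inr ()))) (hp.sub Sum.inl))

theorem fd_dm (hp : FT p) : FD St0.W (fun S v => dm (ml S) (p S v)) := (fd_zr hp).not

theorem fd_rl (hp : FT p) (hq : FT q) : FD St0.W (fun S v => rl (ml S) (p S v) (q S v)) :=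
  (eqT hp hq).not.and ((fd_dm hp).and ((fd_dm hq).and
    ((eqT (hp.mul hq) hp).or (eqT (hp.mul hq) hq))))

theorem fd_bg (hp : FT p) : FD St0.W (fun S v => Big (rl (ml S)) (p S v)) :=
  FD.ex1 (P := fun S v a => ∃ b c, a ≠ b ∧ a ≠ c ∧ b ≠ c ∧ rl (ml S) (p S v) a ∧
    rl (ml S) (p S v) b ∧ rl (ml S) (p S v) c) <|
  FD.ex1 (P := fun S w b => ∃ c, w (Sum.inr ()) ≠ b ∧ w (Sum.inr ()) ≠ c ∧ b ≠ c ∧
    rl (ml S) (p S fun i => w (Sum.inl i)) (w (Sum.inr ())) ∧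
    rl (ml S) (p S fun i => w (Sum.inl i)) b ∧ rl (ml S) (p S fun i => w (Sum.inl i)) c) <|
  FD.ex1 (P := fun S w c => w (Sum.inl (Sum.inr ())) ≠ w (Sum.inr ()) ∧
    w (Sum.inl (Sum.inr ())) ≠ c ∧ w (Sum.inr ()) ≠ c ∧
    rl (ml S) (p S fun i => w (Sum.inl (Sum.inl i))) (w (Sum.inl (Sum.inr ()))) ∧
    rl (ml S) (p S fun i => w (Sum.inl (Sum.inl i))) (w (Sum.inr ())) ∧
    rl (ml S) (p S fun i => w (Sum.inl (Sum.inl i))) c) <|
  (FD.eq _ _).not.and <| (FD.eq _ _).not.and <| (FD.eq _ _).not.and <|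
  (fd_rl (hp.sub fun i => Sum.inl (Sum.inl (Sum.inl i))) (FT.var _)).and <|
  (fd_rl (hp.sub fun i => Sum.inl (Sum.inl (Sum.inl i))) (FT.var _)).and <|
  fd_rl (hp.sub fun i => Sum.inl (Sum.inl (Sum.inl i))) (FT.var _)

end

theorem ax : Ax (fun S : LR.Structure ℕ => St0.W S ∧ FAS (ml S)) := by
  have h1 := axf (P := fun S => ∀ x y z, ml S (ml S x y) z = ml S x (ml S y z)) <|
    FD.all1 (P := fun S _ x => ∀ y z, ml S (ml S x y) z = ml S x (ml S y z)) <|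
    FD.all1 (P := fun S w y => ∀ z, ml S (ml S (w (Sum.inr ())) y) z =
      ml S (w (Sum.inr ())) (ml S y z)) <|
    FD.all1 (P := fun S w z => ml S (ml S (w (Sum.inl (Sum.inr ()))) (w (Sum.inr ()))) z =
      ml S (w (Sum.inl (Sum.inr ()))) (ml S (w (Sum.inr ())) z)) <|
    eqT (((FT.var _).mul (FT.var _)).mul (FT.var _)) ((FT.var _).mul ((FT.var _).mul (FT.var _)))
  have h2 := axf (P := fun S => ∀ x, ml S x x = x) <|
    FD.all1 (P := fun S _ x => ml S x x = x) <| eqT ((FT.var _).mul (FT.var _)) (FT.var _)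
  have h3 := axf (P := fun S => ∀ x y, ml S x y = ml S y x) <|
    FD.all1 (P := fun S _ x => ∀ y, ml S x y = ml S y x) <|
    FD.all1 (P := fun S w y => ml S (w (Sum.inr ())) y = ml S y (w (Sum.inr ()))) <|
    eqT ((FT.var _).mul (FT.var _)) ((FT.var _).mul (FT.var _))
  have h4 := axf (P := fun S => ∃ z, zr (ml S) z) <|
    FD.ex1 (P := fun S _ z => zr (ml S) z) <| fd_zr (FT.var _)
  have h5 := axf (P := fun S => ∀ x y, dm (ml S) x → dm (ml S) y → x ≠ y → ml S x y = x →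
      ¬ Big (rl (ml S)) x ∧ Big (rl (ml S)) y) <|
    FD.all1 (P := fun S _ x => ∀ y, dm (ml S) x → dm (ml S) y → x ≠ y → ml S x y = x →
      ¬ Big (rl (ml S)) x ∧ Big (rl (ml S)) y) <|
    FD.all1 (P := fun S w y => dm (ml S) (w (Sum.inr ())) → dm (ml S) y → w (Sum.inr ()) ≠ y →
      ml S (w (Sum.inr ())) y = w (Sum.inr ()) →
      ¬ Big (rl (ml S)) (w (Sum.inr ())) ∧ Big (rl (ml S)) y) <|
    (fd_dm (FT.var _)).imp <| (fd_dm (FT.var _)).imp <| (FD.eq _ _).not.imp <|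
    (eqT ((FT.var _).mul (FT.var _)) (FT.var _)).imp <|
    (fd_bg (FT.var _)).not.and (fd_bg (FT.var _))
  refine (h1.and (h2.and (h3.and (h4.and h5)))).congr fun S => ?_
  constructor
  · rintro ⟨k1, k2, k3, k4, k5⟩
    exact ⟨k1.1, k1.2, k2.2, k3.2, k4.2, k5.2⟩
  · rintro ⟨hW, k⟩
    exact ⟨⟨hW, k.assoc⟩, ⟨hW, k.idem⟩, ⟨hW, k.comm⟩, ⟨hW, k.zero⟩, ⟨hW, k.lt⟩⟩

/-- **semilattices** -/
theorem leaf_S : Lf_S :=
  engine (K := fun μ => Pool.Agent.N649.SV.KS μ) FAS dm rl ax (fd_dm (FT.var ()))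
    (fd_rl (FT.var 0) (FT.var 1)) (fun _ h N => inf h N) (fun _ _ h h' τ hτ => up h h' τ hτ)
    (fun _ hM => ex hM.sd) (fun _ h => ⟨h.assoc, h.idem, h.comm⟩)

end Pool.Agent.H154.FVS
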